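import Pool.Agent.Q139.Bz.Left
import Pool.Agent.Q139.Bz.Refl

/-!
# MP_cb668b_co : tiling benzels by left stones and bones

For all integers `a, b` with `2 ≤ a ≤ 2 b`, `2 ≤ b ≤ 2 a` and Conway-Lagarias invariant
`I(a, b) ≤ 0`, the `(a, b)`-benzel has a tiling by left stones and bones (all three kinds of
bones allowed).
-/

namespace Pool.Agent.Results.MP_cb668b_co.LeftStonesBones

open Pool.Agent.Q162.Benzel Pool.Agent.Q139.Bz

/-- The invariant `I(a, b)` of the problem statement (all divisions by two are exact). -/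
def I (a b : ℤ) : ℤ :=
  if (a + b) % 3 = 0 then (3 * a ^ 2 - 6 * a * b + 3 * b ^ 2 - a - b) / 2
  else if (a + b) % 3 = 1 then (-a ^ 2 + 4 * a * b - b ^ 2 - a - b + 2) / 2
  else (3 * a ^ 2 - 6 * a * b + 3 * b ^ 2 + a + b - 2) / 2

/-- The allowed tiles: left stones and the bones of all three kinds. -/
def Proto (T : Finset Cell) : Prop := IsLeftStone T ∨ ∃ i, IsBone i T

theorem key {a b : ℤ} (ha : 2 ≤ a) (hab : a ≤ 2 * b) (hb : 2 ≤ b) (hba : b ≤ 2 * a)
    (hI : I a b ≤ 0) : (a + b) % 3 = 0 ∧ 3 * (a - b) ^ 2 ≤ a + b := by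
  unfold I at hI
  split_ifs at hI with h0 h1
  · refine ⟨h0, ?_⟩
    have e1 : 3 * a ^ 2 - 6 * a * b + 3 * b ^ 2 - a - b = 3 * (a - b) ^ 2 - (a + b) := by ring
    rw [e1] at hI
    have h4 : (a - b) ^ 2 % 2 = (a - b) % 2 := by
      rcases Int.even_or_odd' (a - b) with ⟨r, hr | hr⟩
      · rw [hr]
        have : (2 * r) ^ 2 = 2 * (2 * r ^ 2) := by ring
        omega
      · rw [hr]
        have : (2 * r + 1) ^ 2 = 2 * (2 * r ^ 2 + 2 * r) + 1 := by ring
        omega
    omega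
  · exfalso
    have h2 : 1 ≤ 2 * b - a := by omega
    have h3 : 1 ≤ 2 * a - b := by omega
    have h4 : 2 ≤ -a ^ 2 + 4 * a * b - b ^ 2 - a - b + 2 := by
      nlinarith [mul_nonneg (by linarith : (0 : ℤ) ≤ a) (by linarith : (0 : ℤ) ≤ 2 * b - a - 1),
        mul_nonneg (by linarith : (0 : ℤ) ≤ b) (by linarith : (0 : ℤ) ≤ 2 * a - b - 1)]
    omega
  · exfalso
    have h4 : 2 ≤ 3 * a ^ 2 - 6 * a * b + 3 * b ^ 2 + a + b - 2 := by
      nlinarith [sq_nonneg (a - b)]
    omega

theorem result (a b : ℤ) (ha : 2 ≤ a) (hab : a ≤ 2 * b) (hb : 2 ≤ b) (hba : b ≤ 2 * a)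
    (hI : I a b ≤ 0) : ∃ P : Finset (Finset Cell), IsTiling Proto (benzel a b) P := by
  obtain ⟨h0, h1⟩ := key ha hab hb hba hI
  have hp : ∀ n T, IsBone n T → Proto T := fun n T h => Or.inr ⟨n, h⟩
  have hs : ∀ T, IsLeftStone T → Proto T := fun T h => Or.inl h
  rcases le_total b a with h | h
  · exact benzel_left_of_le hp hs a b h0 h ha h1
  · have h2 : Tileable Proto (benzel b a) := by
      apply benzel_left_of_le hp hs b a (by omega) h hb
      have : (b - a) ^ 2 = (a - b) ^ 2 := by ring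
      rw [this]
      linarith
    refine tileable_map refl ?_ (fun c => ?_) h2
    · rintro T (hT | ⟨i, hT⟩)
      · exact Or.inl (refl_leftStone T hT)
      · obtain ⟨j, hj⟩ := refl_bone i T hT
        exact Or.inr ⟨j, hj⟩
    · exact refl_benzel a b c

end Pool.Agent.Results.MP_cb668b_co.LeftStonesBones
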